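import Pool.Agent.Lib.MP_632999_pr.K.CEq

/-! Stationary KPZ equation: the two-point function dominates its own convolutions in convex order. -/

namespace Pool.Agent.Results.MP_632999_pr.ConvexOrder

open MeasureTheory ProbabilityTheory Pool.Agent.K6329

theorem result {Ω : Type} [MeasurableSpace Ω] (P : Measure Ω) (B : ℝ → Ω → ℝ)
    (W : Test → Ω → ℝ) (Z : ℝ → ℝ → Ω → ℝ) (hN : IsNoise P B W) (hZ : IsMild P B W Z) :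
    ∃ S : ℝ → Measure ℝ, S 0 = Measure.dirac 0 ∧
      (∀ t, 0 < t → IsProbabilityMeasure (S t) ∧ Integrable (fun y : ℝ => y) (S t) ∧
        ∫ y, y ∂S t = 0 ∧ ∀ x, (∀ᵐ ω ∂P, 0 < Z t x ω) ∧ MemLp (coleHopf Z t x) 2 P) ∧
      (∀ t₁ t₂ x₁ x₂ : ℝ, 0 < t₁ → t₁ ≤ t₂ →
        2 * covariance (coleHopf Z t₁ x₁) (coleHopf Z t₂ x₂) P =
          ∫ y, |x₁ - y| ∂S t₁ + ∫ y, |x₂ - y| ∂S t₂ - ∫ y, |x₂ - x₁ - y| ∂S (t₂ - t₁)) ∧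
      ∀ s t, 0 < s → 0 < t → ∀ φ : ℝ → ℝ, ConvexOn ℝ Set.univ φ → Integrable φ (S (t + s)) →
        Integrable (fun p : ℝ × ℝ => φ (p.1 + p.2)) ((S t).prod (S s)) ∧
          ∫ p : ℝ × ℝ, φ (p.1 + p.2) ∂(S t).prod (S s) ≤ ∫ y, φ y ∂S (t + s) :=
  main3 hN hZ

end Pool.Agent.Results.MP_632999_pr.ConvexOrder
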