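import Pool.Agent.Lib.MP_632999_pr.K.Main

/-! Stationary KPZ equation: two-sided, non-asymptotic bound for the space-time covariance. -/

namespace Pool.Agent.Results.MP_632999_pr.CovarianceBounds

open MeasureTheory ProbabilityTheory Pool.Agent.K6329

theorem result {Ω : Type} [MeasurableSpace Ω] (P : Measure Ω) (B : ℝ → Ω → ℝ)
    (W : Test → Ω → ℝ) (Z : ℝ → ℝ → Ω → ℝ) (hN : IsNoise P B W) (hZ : IsMild P B W Z) :
    (∀ t, 0 < t → ∀ x, (∀ᵐ ω ∂P, 0 < Z t x ω) ∧ MemLp (coleHopf Z t x) 2 P) ∧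
    ∀ t₁ t₂ x₁ x₂ : ℝ, 0 < t₁ → t₁ ≤ t₂ →
      (variance (coleHopf Z t₁ x₁) P - |x₁|) / 2 ≤
          covariance (coleHopf Z t₁ x₁) (coleHopf Z t₂ x₂) P ∧
        covariance (coleHopf Z t₁ x₁) (coleHopf Z t₂ x₂) P ≤ variance (coleHopf Z t₁ x₁) P :=
  main hN hZ

end Pool.Agent.Results.MP_632999_pr.CovarianceBounds
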